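import Pool.Agent.K7.H49.PD.Few

/-!
# Prime pairs in progressions, uniformly in the modulus, for almost all differences given modulo a prime
by a bilinear form on two arbitrary sets of residues

Definition used: `Pool.Agent.H560R3.GB.C₂`, the twin prime constant `∏_{p > 2} (1 - 1 / (p - 1) ^ 2)`
(the infimum of the partial products).
From Mathlib: `ZMod p`: the residues modulo `p`; `z.val`: the representative of `z` in `{0, ..., p - 1}`.
-/

set_option autoImplicit false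

namespace Pool.Agent.Results.MP_92ef0c_nt.BilinearDifferences

open Finset Pool.Agent.H560R3.GB

open Classical in
/-- `π_d(x; a, q)`: the number of primes `p ≤ x` with `p + d ≤ x` prime and `p ≡ a (mod q)`. (For even
`d > 0` such a prime `p` is automatically odd.) -/
noncomputable def pairs (d : ℕ) (x : ℝ) (a q : ℕ) : ℕ :=
  ((range (⌊x⌋₊ + 1)).filter (fun p => p.Prime ∧ (p + d).Prime ∧ (p : ℝ) + d ≤ x ∧ p ≡ a [MOD q])).card

/-- The main term `M_d(x; q)` of the problem. -/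
noncomputable def main (d : ℕ) (x : ℝ) (q : ℕ) : ℝ :=
  2 / (((range q).filter (fun α => Nat.Coprime α q ∧ Nat.Coprime (α + d) q)).card : ℝ) *
    (∏ p ∈ d.primeFactors.filter (fun p => 2 < p), ((p : ℝ) - 1) / ((p : ℝ) - 2)) * C₂ *
    ∫ t in (2 : ℝ)..x, 1 / Real.log t ^ 2

/-- The estimate of the problem with the bound `X / (log X) ^ C`, for all `x ≤ X`, all moduli
`q ≤ (log X) ^ B`, all admissible classes `a`, and all even `d` with `D ≤ d ≤ D + (log X) ^ A`. -/
def Holds (A B C X D : ℕ) : Prop :=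
  ∀ d q a : ℕ, D ≤ d → (d : ℝ) ≤ D + Real.log X ^ A → 0 < d → Even d → 1 ≤ q → (q : ℝ) ≤ Real.log X ^ B →
    Nat.Coprime a q → Nat.Coprime (a + d) q → ∀ x : ℝ, 2 ≤ x → x ≤ X →
    |(pairs d x a q : ℝ) - main d x q| ≤ X / Real.log X ^ C

lemma holds_of (A B C X D : ℕ) (hgood : Pool.Agent.W93.PP.GoodD A B C X D) : Holds A B C X D := by
  intro d q a hd1 hd2 hd0 hdev hq1 hq2 ha had x hx2 hxX
  obtain ⟨δ, hδ⟩ := Nat.exists_eq_add_of_le hd1
  subst hδ
  have hδL : (δ : ℝ) ≤ Real.log X ^ A := by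
    push_cast at hd2 ⊢
    linarith
  have h2 := hgood δ q a hδL hq1 hq2 ha had hdev.two_dvd hd0.ne' x hx2 hxX
  have e1 : main (D + δ) x q =
      sing (D + δ) / Pool.Agent.W93.PP.Cnt q (D + δ) * Pool.Agent.W93.PP.Li2 x := by
    unfold main sing Pool.Agent.W93.PP.Cnt Pool.Agent.W93.PP.Li2
    ring
  rw [e1]
  exact h2

open Classical in
/-- The number of the pairs `(u, v)`, `u ∈ R`, `v ∈ S`, for which `Holds` fails for `D = c + κ r`, where `r` is the
residue of `u v + α u + β v` modulo `p` in `{0, ..., p - 1}`. -/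
noncomputable def pairExceptions (A B C X : ℕ) {p : ℕ} (R S : Finset (ZMod p)) (α β : ZMod p → ZMod p) (c κ : ℕ) : ℕ :=
  ((R ×ˢ S).filter (fun w => ¬ Holds A B C X (c + κ * (w.1 * w.2 + α w.1 + β w.2).val))).card

/-- Let `A`, `B`, `C`, `C₁`, `U` and `W` be fixed and `δ > 0`, let `p` be a large prime, and let `X ≥ p` be such that
`p (log X) ^ (C + 6) ≤ X ≤ p (log X) ^ W`. Let `c ≥ 0`, `κ ≥ 1` be integers with `c + κ p ≤ C₁ p`.

For ALL sets `R`, `S` of residues modulo `p` with `|R| |S| ≥ p ^ (1 + δ)` and ALL functions `α`, `β` on the residues,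
all pairs `(u, v)`, `u ∈ R`, `v ∈ S`, with at most `|R| |S| / (log p) ^ U` exceptions, have the following property
for `D = c + κ r`, `0 ≤ r < p`, `r ≡ u v + α(u) + β(v) (mod p)`: for all even `d > 0` with
`D ≤ d ≤ D + (log X) ^ A`, all `x ≤ X`, all `q ≤ (log X) ^ B` and all `a` with `(a, q) = (a + d, q) = 1`,
`|π_d(x; a, q) - M_d(x; q)| ≤ X / (log X) ^ C`. -/
theorem result (A B C C₁ U W : ℕ) (δ : ℝ) (hδ : 0 < δ) : ∃ p₀ : ℕ, ∀ p : ℕ, p₀ ≤ p → p.Prime →
    ∀ X : ℕ, p ≤ X → (p : ℝ) * Real.log X ^ (C + 6) ≤ X → (X : ℝ) ≤ p * Real.log X ^ W →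
    ∀ c κ : ℕ, 1 ≤ κ → c + κ * p ≤ C₁ * p →
      ∀ (R S : Finset (ZMod p)) (α β : ZMod p → ZMod p), (p : ℝ) ^ (1 + δ) ≤ R.card * S.card →
        (pairExceptions A B C X R S α β c κ : ℝ) ≤ R.card * S.card / Real.log p ^ U := by
  classical
  obtain ⟨q1, h1⟩ := Pool.Agent.K7.H49.PD.pseudo A B C C₁ U W (δ / 2) (by positivity)
  refine ⟨q1, fun p hp hpp X hpX hX1 hX2 c κ hκ hcκ => ?_⟩
  haveI : Fact p.Prime := ⟨hpp⟩
  have hlt : ∀ (α β : ZMod p → ZMod p) (w : ZMod p × ZMod p), Pool.Agent.K7.H49.PR.res α β w ≤ p :=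
    fun α β w => (ZMod.val_lt _).le
  intro R S α β hRS
  have h4 := h1 p hp X hpX hX1 hX2 (ZMod p × ZMod p) (R ×ˢ S)
    (Pool.Agent.K7.H49.PR.res α β) (fun w _ => hlt α β w)
    (fun k hk1 hkp => Pool.Agent.K7.H49.PR.bil_delta R S α β (δ / 2) (by
      have e : 1 + 2 * (δ / 2) = 1 + δ := by ring
      rw [e]; exact hRS) k hk1 hkp) c κ hκ hcκ
    ((R ×ˢ S).filter (fun w => ¬ Holds A B C X (c + κ * (w.1 * w.2 + α w.1 + β w.2).val))) (filter_subset _ _)
    (fun w hw hG => (mem_filter.1 hw).2 (holds_of _ _ _ _ _ hG))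
  rw [card_product] at h4
  unfold pairExceptions
  push_cast at h4 ⊢
  exact h4

end Pool.Agent.Results.MP_92ef0c_nt.BilinearDifferences
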