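import Pool.Agent.K7.H49.PD.Few

/-!
# Prime pairs in progressions, uniformly in the modulus, for almost all differences in sequences near
convex or concave functions

Definition used: `Pool.Agent.H560R3.GB.C₂`, the twin prime constant `∏_{p > 2} (1 - 1 / (p - 1) ^ 2)`
(the infimum of the partial products).

The functions are ARBITRARY real functions whose second differences have one sign and are not too small,
and the members of the sequence may differ from the values arbitrarily by up to a power of `log N`.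
-/

set_option autoImplicit false

namespace Pool.Agent.Results.MP_92ef0c_nt.ConvexDifferences

open Finset Pool.Agent.H560R3.GB

open Classical in
/-- `π_d(x; a, q)`: the number of primes `p ≤ x` with `p + d ≤ x` prime and `p ≡ a (mod q)`. (For even
`d > 0` such a prime `p` is automatically odd.) -/
noncomputable def pairs (d : ℕ) (x : ℝ) (a q : ℕ) : ℕ :=
  ((range (⌊x⌋₊ + 1)).filter (fun p => p.Prime ∧ (p + d).Prime ∧ (p : ℝ) + d ≤ x ∧ p ≡ a [MOD q])).card

/-- The main term `M_d(x; q)` of the problem. -/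
noncomputable def main (d : ℕ) (x : ℝ) (q : ℕ) : ℝ :=
  2 / (((range q).filter (fun α => Nat.Coprime α q ∧ Nat.Coprime (α + d) q)).card : ℝ) *
    (∏ p ∈ d.primeFactors.filter (fun p => 2 < p), ((p : ℝ) - 1) / ((p : ℝ) - 2)) * C₂ *
    ∫ t in (2 : ℝ)..x, 1 / Real.log t ^ 2

/-- The estimate of the problem with the bound `X / (log X) ^ C`, for all `x ≤ X`, all moduli
`q ≤ (log X) ^ B`, all admissible classes `a`, and all even `d` with `D ≤ d ≤ D + (log X) ^ A`. -/
def Holds (A B C X D : ℕ) : Prop :=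
  ∀ d q a : ℕ, D ≤ d → (d : ℝ) ≤ D + Real.log X ^ A → 0 < d → Even d → 1 ≤ q → (q : ℝ) ≤ Real.log X ^ B →
    Nat.Coprime a q → Nat.Coprime (a + d) q → ∀ x : ℝ, 2 ≤ x → x ≤ X →
    |(pairs d x a q : ℝ) - main d x q| ≤ X / Real.log X ^ C

lemma holds_of (A B C X D : ℕ) (hgood : Pool.Agent.W93.PP.GoodD A B C X D) : Holds A B C X D := by
  intro d q a hd1 hd2 hd0 hdev hq1 hq2 ha had x hx2 hxX
  obtain ⟨δ, hδ⟩ := Nat.exists_eq_add_of_le hd1
  subst hδ
  have hδL : (δ : ℝ) ≤ Real.log X ^ A := by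
    push_cast at hd2 ⊢
    linarith
  have h2 := hgood δ q a hδL hq1 hq2 ha had hdev.two_dvd hd0.ne' x hx2 hxX
  have e1 : main (D + δ) x q =
      sing (D + δ) / Pool.Agent.W93.PP.Cnt q (D + δ) * Pool.Agent.W93.PP.Li2 x := by
    unfold main sing Pool.Agent.W93.PP.Cnt Pool.Agent.W93.PP.Li2
    ring
  rw [e1]
  exact h2

/-- The numbers `t 1, ..., t x` differ by at most `V` from the values of some real function `f` on
`{1, ..., x}` whose second differences are all at least `lam`, or all at most `-lam`. -/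
def NearConvex (x : ℕ) (t : ℕ → ℕ) (V lam : ℝ) : Prop :=
  ∃ f : ℕ → ℝ, (∀ m, 1 ≤ m → m ≤ x → |(t m : ℝ) - f m| ≤ V) ∧
    ((∀ m, 1 ≤ m → m + 2 ≤ x → lam ≤ f (m + 2) - 2 * f (m + 1) + f m) ∨
      (∀ m, 1 ≤ m → m + 2 ≤ x → f (m + 2) - 2 * f (m + 1) + f m ≤ -lam))

open Classical in
/-- The number of the indices `1 ≤ m ≤ x` for which `Holds` fails for `D = t m`. -/
noncomputable def exceptions (A B C X x : ℕ) (t : ℕ → ℕ) : ℕ :=
  ((Icc 1 x).filter (fun m => ¬ Holds A B C X (t m))).card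

/-- Let `A`, `B`, `C`, `C₁`, `U` and `W` be fixed and `η > 0`, let `N` be large, and let `X ≥ N` be such that
`N (log X) ^ (C + 6) ≤ X ≤ N (log X) ^ W`. Let `N ^ (1 / 2 + η) ≤ x ≤ N`, and let `t 1, ..., t x` be ANY numbers of
`{0, ..., N}` that differ by at most `(log N) ^ C₁` from the values of some real function whose second
differences are all at least `N / (x² (log N) ^ C₁)`, or all at most `-N / (x² (log N) ^ C₁)`. Then all the `m ≤ x`
with at most `x / (log N) ^ U` exceptions have the following property: for all even `d > 0` with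
`t m ≤ d ≤ t m + (log X) ^ A`, all `x' ≤ X`, all `q ≤ (log X) ^ B` and all `a` with `(a, q) = (a + d, q) = 1`,
`|π_d(x'; a, q) - M_d(x'; q)| ≤ X / (log X) ^ C`. -/
theorem result (A B C C₁ U W : ℕ) (η : ℝ) (hη : 0 < η) : ∃ N₀ : ℕ, ∀ N : ℕ, N₀ ≤ N →
    ∀ X : ℕ, N ≤ X → (N : ℝ) * Real.log X ^ (C + 6) ≤ X → (X : ℝ) ≤ N * Real.log X ^ W →
    ∀ x : ℕ, (N : ℝ) ^ (1 / 2 + η) ≤ x → x ≤ N → ∀ t : ℕ → ℕ, (∀ m, 1 ≤ m → m ≤ x → t m ≤ N) →
    NearConvex x t (Real.log N ^ C₁) (N / ((x : ℝ) ^ 2 * Real.log N ^ C₁)) →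
      (exceptions A B C X x t : ℝ) ≤ x / Real.log N ^ U := by
  classical
  obtain ⟨N₀, h0⟩ := Pool.Agent.K7.H49.PD.convex A B C C₁ U W η hη
  refine ⟨N₀, fun N hN X hNX hX1 hX2 x hx hxN t ht hf => ?_⟩
  obtain ⟨f, hf1, hf2⟩ := hf
  unfold exceptions
  exact h0 N hN X hNX hX1 hX2 x hx hxN f t (fun m hm => ht m (mem_Icc.1 hm).1 (mem_Icc.1 hm).2)
    ⟨fun m hm => hf1 m (mem_Icc.1 hm).1 (mem_Icc.1 hm).2, hf2⟩
    ((Icc 1 x).filter (fun m => ¬ Holds A B C X (t m))) (filter_subset _ _)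
    (fun m hm hG => (mem_filter.1 hm).2 (holds_of _ _ _ _ _ hG))

end Pool.Agent.Results.MP_92ef0c_nt.ConvexDifferences
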