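import Pool.Agent.K7.H49.PD.Few

/-!
# Prime pairs in progressions, uniformly in the modulus, for almost all differences composed
of given small primes

Definition used: `Pool.Agent.H560R3.GB.C₂`, the twin prime constant `∏_{p > 2} (1 - 1 / (p - 1) ^ 2)`
(the infimum of the partial products).

The sets of differences are very thin: for `P` the set of all primes up to `(log N) ^ K` there are
`N ^ (1 - 1 / K + o(1))` integers up to `N` composed of primes of `P`.
-/

set_option autoImplicit false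

namespace Pool.Agent.Results.MP_92ef0c_nt.DifferencesOfGivenPrimes

open Finset Pool.Agent.H560R3.GB

open Classical in
/-- `π_d(x; a, q)`: the number of primes `p ≤ x` with `p + d ≤ x` prime and `p ≡ a (mod q)`. (For even
`d > 0` such a prime `p` is automatically odd.) -/
noncomputable def pairs (d : ℕ) (x : ℝ) (a q : ℕ) : ℕ :=
  ((range (⌊x⌋₊ + 1)).filter (fun p => p.Prime ∧ (p + d).Prime ∧ (p : ℝ) + d ≤ x ∧ p ≡ a [MOD q])).card

/-- The main term `M_d(x; q)` of the problem. -/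
noncomputable def main (d : ℕ) (x : ℝ) (q : ℕ) : ℝ :=
  2 / (((range q).filter (fun α => Nat.Coprime α q ∧ Nat.Coprime (α + d) q)).card : ℝ) *
    (∏ p ∈ d.primeFactors.filter (fun p => 2 < p), ((p : ℝ) - 1) / ((p : ℝ) - 2)) * C₂ *
    ∫ t in (2 : ℝ)..x, 1 / Real.log t ^ 2

/-- The estimate of the problem with the bound `X / (log X) ^ C`, for all `x ≤ X`, all moduli
`q ≤ (log X) ^ B`, all admissible classes `a`, and all even `d` with `D ≤ d ≤ D + (log X) ^ A`. -/
def Holds (A B C X D : ℕ) : Prop :=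
  ∀ d q a : ℕ, D ≤ d → (d : ℝ) ≤ D + Real.log X ^ A → 0 < d → Even d → 1 ≤ q → (q : ℝ) ≤ Real.log X ^ B →
    Nat.Coprime a q → Nat.Coprime (a + d) q → ∀ x : ℝ, 2 ≤ x → x ≤ X →
    |(pairs d x a q : ℝ) - main d x q| ≤ X / Real.log X ^ C

lemma holds_of (A B C X D : ℕ) (hgood : Pool.Agent.W93.PP.GoodD A B C X D) : Holds A B C X D := by
  intro d q a hd1 hd2 hd0 hdev hq1 hq2 ha had x hx2 hxX
  obtain ⟨δ, hδ⟩ := Nat.exists_eq_add_of_le hd1
  subst hδ
  have hδL : (δ : ℝ) ≤ Real.log X ^ A := by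
    push_cast at hd2 ⊢
    linarith
  have h2 := hgood δ q a hδL hq1 hq2 ha had hdev.two_dvd hd0.ne' x hx2 hxX
  have e1 : main (D + δ) x q =
      sing (D + δ) / Pool.Agent.W93.PP.Cnt q (D + δ) * Pool.Agent.W93.PP.Li2 x := by
    unfold main sing Pool.Agent.W93.PP.Cnt Pool.Agent.W93.PP.Li2
    ring
  rw [e1]
  exact h2

open Classical in
/-- The positive integers up to `N` all of whose prime factors belong to `P`. -/
noncomputable def composed (P : Finset ℕ) (N : ℕ) : Finset ℕ :=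
  (Icc 1 N).filter (fun l => ∀ p : ℕ, p.Prime → p ∣ l → p ∈ P)

open Classical in
/-- The number of the integers `l ≤ N` composed of primes of `P` for which `Holds` fails for `D = c + κ l`. -/
noncomputable def exceptions (A B C X N : ℕ) (P : Finset ℕ) (c κ : ℕ) : ℕ :=
  ((composed P N).filter (fun l => ¬ Holds A B C X (c + κ * l))).card

lemma composed_eq (P : Finset ℕ) (X : ℕ) : composed P X = Pool.Agent.K7.H49.SM.S P X := by
  classical
  ext l
  rw [Pool.Agent.K7.H49.SM.mem_S]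
  unfold composed
  rw [mem_filter, mem_Icc]
  constructor
  · rintro ⟨⟨h1, h2⟩, h3⟩
    refine ⟨h1, h2, fun p hp => ?_⟩
    exact h3 p (Nat.prime_of_mem_primeFactors hp) (Nat.dvd_of_mem_primeFactors hp)
  · rintro ⟨h1, h2, h3⟩
    refine ⟨⟨h1, h2⟩, fun p hp hpl => ?_⟩
    exact h3 (Nat.mem_primeFactors.2 ⟨hp, hpl, by omega⟩)

/-- Let `A`, `B`, `C`, `C₁`, `U` and `W` be fixed and `δ > 0`, let `N` be large, and let `X ≥ N` be such that
`N (log X) ^ (C + 6) ≤ X ≤ N (log X) ^ W`. Let `2 ≤ y ≤ (log N) ^ C₁`, let `P` be ANY set of at least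
`y ^ (1 / 2 + δ) log N` primes up to `y`, and let `c ≥ 0`, `κ ≥ 1` be integers with `c + κ N ≤ C₁ N`. Then all the
integers `l ≤ N` composed of primes of `P`, up to a proportion of at most `1 / (log N) ^ U` of them, have the
following property: for all even `d > 0` with `c + κ l ≤ d ≤ c + κ l + (log X) ^ A`, all `x ≤ X`, all
`q ≤ (log X) ^ B` and all `a` with `(a, q) = (a + d, q) = 1`, `|π_d(x; a, q) - M_d(x; q)| ≤ X / (log X) ^ C`. -/
theorem result (A B C C₁ U W : ℕ) (δ : ℝ) (hδ : 0 < δ) : ∃ N₀ : ℕ, ∀ N : ℕ, N₀ ≤ N →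
    ∀ X : ℕ, N ≤ X → (N : ℝ) * Real.log X ^ (C + 6) ≤ X → (X : ℝ) ≤ N * Real.log X ^ W →
    ∀ y : ℕ, 2 ≤ y → (y : ℝ) ≤ Real.log N ^ C₁ →
    ∀ P : Finset ℕ, (∀ p ∈ P, p.Prime ∧ p ≤ y) → (y : ℝ) ^ (1 / 2 + δ) * Real.log N ≤ P.card →
    ∀ c κ : ℕ, 1 ≤ κ → c + κ * N ≤ C₁ * N →
      (exceptions A B C X N P c κ : ℝ) ≤ (composed P N).card / Real.log N ^ U := by
  classical
  obtain ⟨N₀, h0⟩ := Pool.Agent.K7.H49.PD.composed A B C C₁ U W δ hδ
  refine ⟨N₀, fun N hN X hNX hX1 hX2 y hy hyC P hP hc c κ hκ hcκ => ?_⟩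
  have h1 := h0 N hN X hNX hX1 hX2 y hy hyC P hP hc c κ hκ hcκ
    ((composed P N).filter (fun l => ¬ Holds A B C X (c + κ * l))) (by rw [← composed_eq]; exact filter_subset _ _)
    (fun l hl hG => (mem_filter.1 hl).2 (holds_of _ _ _ _ _ hG))
  rw [← composed_eq] at h1
  unfold exceptions
  exact h1

end Pool.Agent.Results.MP_92ef0c_nt.DifferencesOfGivenPrimes
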