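import Pool.Agent.K7.H49.PD.Few
import Pool.Agent.K7.H67.BG.Fam

/-!
# Prime pairs in progressions, uniformly in the modulus, for almost all differences given by a short geometric
progression modulo a prime or by a multilinear form on arbitrary sets of residues

The families may be as thin as `p ^ δ` for every `δ > 0` (a subgroup of this order of the multiplicative group modulo
`p`, or that many consecutive outputs of a linear congruential generator). The exponential sums over them have a power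
saving (theorems of the type of Bourgain, Glibichuk and Konyagin, proved in `Pool.Agent.K7.H67.BG` from the flattening
theorem `Pool.Agent.Y881.SP.flat` of the starting files); so their additive energy of some order is minimal up to a
constant factor, and the theorem on families of small energy of the starting files applies (in the form given to it by
helper49 in `Pool.Agent.K7.H49.PD`, where exponential sums with a power saving are the hypothesis).

Definition used: `Pool.Agent.H560R3.GB.C₂`, the twin prime constant `∏_{p > 2} (1 - 1 / (p - 1) ^ 2)`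
(the infimum of the partial products).
From Mathlib: `ZMod p`: the residues modulo `p`; `z.val`: the representative of `z` in `{0, ..., p - 1}`;
`(ZMod p)ˣ`: the nonzero residues; `orderOf g`: the order of `g` in this group; `Fintype.piFinset A`: the product of
the sets `A i`.
-/

set_option autoImplicit false

namespace Pool.Agent.Results.MP_92ef0c_nt.MultilinearDifferences

open Finset Pool.Agent.H560R3.GB

open Classical in
/-- `π_d(x; a, q)`: the number of primes `p ≤ x` with `p + d ≤ x` prime and `p ≡ a (mod q)`. (For even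
`d > 0` such a prime `p` is automatically odd.) -/
noncomputable def pairs (d : ℕ) (x : ℝ) (a q : ℕ) : ℕ :=
  ((range (⌊x⌋₊ + 1)).filter (fun p => p.Prime ∧ (p + d).Prime ∧ (p : ℝ) + d ≤ x ∧ p ≡ a [MOD q])).card

/-- The main term `M_d(x; q)` of the problem. -/
noncomputable def main (d : ℕ) (x : ℝ) (q : ℕ) : ℝ :=
  2 / (((range q).filter (fun α => Nat.Coprime α q ∧ Nat.Coprime (α + d) q)).card : ℝ) *
    (∏ p ∈ d.primeFactors.filter (fun p => 2 < p), ((p : ℝ) - 1) / ((p : ℝ) - 2)) * C₂ *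
    ∫ t in (2 : ℝ)..x, 1 / Real.log t ^ 2

/-- The estimate of the problem with the bound `X / (log X) ^ C`, for all `x ≤ X`, all moduli
`q ≤ (log X) ^ B`, all admissible classes `a`, and all even `d` with `D ≤ d ≤ D + (log X) ^ A`. -/
def Holds (A B C X D : ℕ) : Prop :=
  ∀ d q a : ℕ, D ≤ d → (d : ℝ) ≤ D + Real.log X ^ A → 0 < d → Even d → 1 ≤ q → (q : ℝ) ≤ Real.log X ^ B →
    Nat.Coprime a q → Nat.Coprime (a + d) q → ∀ x : ℝ, 2 ≤ x → x ≤ X →
    |(pairs d x a q : ℝ) - main d x q| ≤ X / Real.log X ^ C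

lemma holds_of (A B C X D : ℕ) (hgood : Pool.Agent.W93.PP.GoodD A B C X D) : Holds A B C X D := by
  intro d q a hd1 hd2 hd0 hdev hq1 hq2 ha had x hx2 hxX
  obtain ⟨δ, hδ⟩ := Nat.exists_eq_add_of_le hd1
  subst hδ
  have hδL : (δ : ℝ) ≤ Real.log X ^ A := by
    push_cast at hd2 ⊢
    linarith
  have h2 := hgood δ q a hδL hq1 hq2 ha had hdev.two_dvd hd0.ne' x hx2 hxX
  have e1 : main (D + δ) x q =
      sing (D + δ) / Pool.Agent.W93.PP.Cnt q (D + δ) * Pool.Agent.W93.PP.Li2 x := by
    unfold main sing Pool.Agent.W93.PP.Cnt Pool.Agent.W93.PP.Li2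
    ring
  rw [e1]
  exact h2

open Classical in
/-- The number of the exponents `1 ≤ m ≤ x` for which `Holds` fails for `D = c + κ r`, where `r` is the residue of
`b u ^ m + t` modulo `p` in `{0, ..., p - 1}`. -/
noncomputable def powerExceptions (A B C X : ℕ) {p : ℕ} (b t : ZMod p) (u : (ZMod p)ˣ) (x c κ : ℕ) : ℕ :=
  ((Icc 1 x).filter (fun m => ¬ Holds A B C X (c + κ * (b * ((u ^ m : (ZMod p)ˣ) : ZMod p) + t).val))).card

open Classical in
/-- The number of the vectors `u`, `u i ∈ R i`, for which `Holds` fails for `D = c + κ r`, where `r` is the residue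
of `∏ i, u i + ∑ i, f i u` modulo `p` in `{0, ..., p - 1}`. -/
noncomputable def vectorExceptions (A B C X : ℕ) {p k : ℕ} (R : Fin k → Finset (ZMod p))
    (f : Fin k → (Fin k → ZMod p) → ZMod p) (c κ : ℕ) : ℕ :=
  ((Fintype.piFinset R).filter (fun u => ¬ Holds A B C X (c + κ * (∏ i, u i + ∑ i, f i u).val))).card

/-- Let `A`, `B`, `C`, `C₁`, `U` and `W` be fixed and `δ > 0`. In the following `p` is a large prime, `X ≥ p` is such
that `p (log X) ^ (C + 6) ≤ X ≤ p (log X) ^ W`, and `c ≥ 0`, `κ ≥ 1` are integers with `c + κ p ≤ C₁ p`. `Holds` for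
`D` says: for all even `d > 0` with `D ≤ d ≤ D + (log X) ^ A`, all `x ≤ X`, all `q ≤ (log X) ^ B` and all `a` with
`(a, q) = (a + d, q) = 1`, `|π_d(x; a, q) - M_d(x; q)| ≤ X / (log X) ^ C`.

* For all residues `b`, `u` prime to `p`, every residue `t` and all `x ≥ p ^ δ` at most equal to the order of `u`
  modulo `p`: for all but at most `x / (log p) ^ U` of the exponents `1 ≤ m ≤ x`, `Holds` is true for `D = c + κ r`,
  where `0 ≤ r < p` and `r ≡ b u ^ m + t (mod p)`.
* For every `k ≥ k₀(δ)` (and every large prime `p`, in terms of `k`): for ALL sets `R 1, ..., R k` of at least `p ^ δ`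
  residues modulo `p` and ALL functions `f 1, ..., f k` of `k` residues such that `f i` does not depend on the `i`-th
  variable, for all but at most `∏ |R i| / (log p) ^ U` of the vectors `u`, `u i ∈ R i`, `Holds` is true for
  `D = c + κ r`, where `0 ≤ r < p` and `r ≡ u 1 u 2 ... u k + ∑ f i (u) (mod p)`. -/
theorem result (A B C C₁ U W : ℕ) (δ : ℝ) (hδ : 0 < δ) :
    (∃ p₀ : ℕ, ∀ p : ℕ, p₀ ≤ p → p.Prime →
      ∀ X : ℕ, p ≤ X → (p : ℝ) * Real.log X ^ (C + 6) ≤ X → (X : ℝ) ≤ p * Real.log X ^ W →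
      ∀ c κ : ℕ, 1 ≤ κ → c + κ * p ≤ C₁ * p →
      ∀ (b t : ZMod p) (u : (ZMod p)ˣ) (x : ℕ), b ≠ 0 → (p : ℝ) ^ δ ≤ x → x ≤ orderOf u →
        (powerExceptions A B C X b t u x c κ : ℝ) ≤ x / Real.log p ^ U) ∧
    (∃ k₀ : ℕ, ∀ k : ℕ, k₀ ≤ k → ∃ p₀ : ℕ, ∀ p : ℕ, p₀ ≤ p → p.Prime →
      ∀ X : ℕ, p ≤ X → (p : ℝ) * Real.log X ^ (C + 6) ≤ X → (X : ℝ) ≤ p * Real.log X ^ W →
      ∀ c κ : ℕ, 1 ≤ κ → c + κ * p ≤ C₁ * p →
      ∀ R : Fin k → Finset (ZMod p), (∀ i, (p : ℝ) ^ δ ≤ (R i).card) →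
      ∀ f : Fin k → (Fin k → ZMod p) → ZMod p,
        (∀ (i : Fin k) (u v : Fin k → ZMod p), (∀ j, j ≠ i → u j = v j) → f i u = f i v) →
        (vectorExceptions A B C X R f c κ : ℝ) ≤ (∏ i, ((R i).card : ℝ)) / Real.log p ^ U) := by
  classical
  constructor
  · obtain ⟨γ, hγ, p₁, hsup⟩ := Pool.Agent.K7.H67.BG.pw_sup δ hδ
    obtain ⟨q₁, h1⟩ := Pool.Agent.K7.H49.PD.pseudo A B C C₁ U W γ hγ
    refine ⟨max p₁ q₁, fun p hp hpp X hpX hX1 hX2 c κ hκ hcκ b t u x hb hx hxu => ?_⟩
    have : Fact p.Prime := ⟨hpp⟩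
    have : NeZero p := ⟨hpp.ne_zero⟩
    have h4 := h1 p (le_trans (le_max_right _ _) hp) X hpX hX1 hX2 ℕ (Icc 1 x) (Pool.Agent.K7.H67.BG.pres b t u)
      (fun m _ => Pool.Agent.K7.H67.BG.pres_le b t u m)
      (hsup p (le_trans (le_max_left _ _) hp) hpp b t u x hb hx hxu) c κ hκ hcκ
      ((Icc 1 x).filter (fun m => ¬ Holds A B C X (c + κ * (b * ((u ^ m : (ZMod p)ˣ) : ZMod p) + t).val)))
      (filter_subset _ _) (fun m hm hG => (mem_filter.1 hm).2 (holds_of _ _ _ _ _ hG))
    rw [Nat.card_Icc, Nat.add_sub_cancel] at h4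
    unfold powerExceptions
    exact h4
  · obtain ⟨k₀, hk₀⟩ := Pool.Agent.K7.H67.BG.vec_sup δ hδ
    refine ⟨k₀, fun k hk => ?_⟩
    obtain ⟨γ, hγ, p₁, hsup⟩ := hk₀ k hk
    obtain ⟨q₁, h1⟩ := Pool.Agent.K7.H49.PD.pseudo A B C C₁ U W γ hγ
    refine ⟨max p₁ q₁, fun p hp hpp X hpX hX1 hX2 c κ hκ hcκ R hR f hf => ?_⟩
    have : Fact p.Prime := ⟨hpp⟩
    have : NeZero p := ⟨hpp.ne_zero⟩
    have hcard : ((Fintype.piFinset R).card : ℝ) = ∏ i, ((R i).card : ℝ) := by
      rw [Fintype.card_piFinset]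
      push_cast
      rfl
    have h4 := h1 p (le_trans (le_max_right _ _) hp) X hpX hX1 hX2 (Fin k → ZMod p) (Fintype.piFinset R)
      (Pool.Agent.K7.H67.BG.vres f) (fun m _ => Pool.Agent.K7.H67.BG.vres_le f m)
      (hsup p (le_trans (le_max_left _ _) hp) hpp R hR f hf) c κ hκ hcκ
      ((Fintype.piFinset R).filter (fun u => ¬ Holds A B C X (c + κ * (∏ i, u i + ∑ i, f i u).val)))
      (filter_subset _ _) (fun m hm hG => (mem_filter.1 hm).2 (holds_of _ _ _ _ _ hG))
    rw [hcard] at h4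
    unfold vectorExceptions
    exact h4

end Pool.Agent.Results.MP_92ef0c_nt.MultilinearDifferences
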